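import Pool.Agent.V7H10.E68d

/-!
# MP_e68cb8_nt, Q2: the lower limits are irrational and are not lower bounds

`t` and `h` are those of the starting file `Pool.Agent.R488.TM`: `t n = (-1) ^ s₂(n)`, `h 0 = 0`,
`h 1 = 1`, `h (n + 2) = t (n + 2) * h (n + 1) + h n`.

For EVERY `k ≥ 1` and `i < 2 ^ k` the number `C_{k,i} = liminf |h (2^k n + i + 1)| / |h (2^k n + i)|`
is irrational, and some ratio with `2^k n + i ≥ 4` lies strictly below it.

Proof: with `X n = |h (4n)|`, `Y n = |h (4n+1)|` a nonzero integer linear form in `(X n, Y n)` is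
pulled back along the recursion; after boundedly many steps its coefficients have the same sign, so
it is not small.  The minimum of the ratios over the class is attained (see the helper file), hence
rational and strictly smaller than the irrational lower limit.
-/

set_option autoImplicit false

namespace Pool.Agent.Results.MP_e68cb8_nt.LimInfIrrationalH10

open Pool.Agent.R488.TM Filter

theorem result (k i : ℕ) (hk : 1 ≤ k) (hi : i < 2 ^ k) :
    Irrational (liminf (fun n : ℕ =>
      |(h (2 ^ k * n + i + 1) : ℝ)| / |(h (2 ^ k * n + i) : ℝ)|) atTop) ∧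
    ∃ n : ℕ, 4 ≤ 2 ^ k * n + i ∧
      |(h (2 ^ k * n + i + 1) : ℝ)| / |(h (2 ^ k * n + i) : ℝ)| <
        liminf (fun n : ℕ => |(h (2 ^ k * n + i + 1) : ℝ)| / |(h (2 ^ k * n + i) : ℝ)|) atTop := by
  have hu : Tendsto (fun n : ℕ => 2 ^ k * n + i) atTop atTop := by
    refine tendsto_atTop_mono (fun n => ?_) tendsto_id
    have : 1 ≤ 2 ^ k := Nat.one_le_two_pow
    show n ≤ 2 ^ k * n + i
    nlinarith
  have h1 := Pool.Agent.V7H10.E68.liminf_irrational (fun n => 2 ^ k * n + i) hu
  refine ⟨h1, ?_⟩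
  obtain ⟨n, hn, hmin⟩ := Pool.Agent.V7H10.E68.attained k i hk hi
  refine ⟨n, hn, ?_⟩
  have hle : Pool.Agent.V7H10.E68.ratio (2 ^ k * n + i) ≤
      liminf (fun n : ℕ => Pool.Agent.V7H10.E68.ratio (2 ^ k * n + i)) atTop := by
    apply le_liminf_of_le
    · have hb2 : IsBoundedUnder (· ≤ ·) atTop
          (fun n : ℕ => Pool.Agent.V7H10.E68.ratio (2 ^ k * n + i)) := by
        refine ⟨5, ?_⟩
        rw [eventually_map]
        filter_upwards [hu.eventually_ge_atTop 4] with n hn
        exact Pool.Agent.V7H10.E68.ratio_le _ hn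
      exact hb2.isCoboundedUnder_flip
    · filter_upwards [hu.eventually_ge_atTop 4] with n' hn'
      exact hmin n' hn'
  refine lt_of_le_of_ne hle fun heq => ?_
  apply h1
  refine ⟨(|h (2 ^ k * n + i + 1)| : ℚ) / |h (2 ^ k * n + i)|, ?_⟩
  refine Eq.trans ?_ heq
  push_cast
  rfl

end Pool.Agent.Results.MP_e68cb8_nt.LimInfIrrationalH10
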