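import Pool.Agent.V7H10.E68d

/-!
# MP_e68cb8_nt, Q2 with the infimum in place of the lower limit

`t` and `h` are those of the starting file `Pool.Agent.R488.TM`: `t n = (-1) ^ s₂(n)`, `h 0 = 0`,
`h 1 = 1`, `h (n + 2) = t (n + 2) * h (n + 1) + h n`.

The best constants in `|h (2^k n + i + 1)| ≥ C_{k,i} |h (2^k n + i)|` (`2^k n + i ≥ 4`) are attained,
hence rational, `C_{2k,0} = C_{2k+1,0}`, and the four values of the problem are correct.

Proof: `z (n) = X n / Y n` satisfies `z (n+1) = F_{s(n+1)} (z n)` with `F_+` increasing into `[1, 2]`,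
`F_-` decreasing into `[0, 1]`; along the multiples of `2 ^ j` the same kind of recursion holds, with
an increasing or a decreasing map inserted, and the extreme values are at the multiples number `2`
and `3` (`j` even) or `1` and `6` (`j` odd).
-/

set_option autoImplicit false

namespace Pool.Agent.Results.MP_e68cb8_nt.MinimaAttainedH10

open Pool.Agent.R488.TM

/-- the infimum of the ratios `|h (2^k n + i + 1)| / |h (2^k n + i)|` over all `n` with
`2^k n + i ≥ 4` -/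
noncomputable def C (k i : ℕ) : ℝ :=
  sInf {x : ℝ | ∃ n : ℕ, 4 ≤ 2 ^ k * n + i ∧
    x = |(h (2 ^ k * n + i + 1) : ℝ)| / |(h (2 ^ k * n + i) : ℝ)|}

lemma C_eq (k i : ℕ) : C k i = Pool.Agent.V7H10.E68.infRatio k i := rfl

lemma z8 : 1 / Pool.Agent.V7H10.E68.z 8 = 64 / 83 := by
  have h1 : X 8 = 83 := by decide +kernel
  have h2 : Y 8 = 64 := by decide +kernel
  unfold Pool.Agent.V7H10.E68.z
  rw [h1, h2]; norm_num

lemma z32 : 1 / Pool.Agent.V7H10.E68.z 32 = 52071130 / 67519091 := by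
  have h1 : X 32 = 67519091 := by decide +kernel
  have h2 : Y 32 = 52071130 := by decide +kernel
  unfold Pool.Agent.V7H10.E68.z
  rw [h1, h2]; norm_num

theorem result :
    (∀ k i : ℕ, 1 ≤ k → i < 2 ^ k →
      (∃ n : ℕ, 4 ≤ 2 ^ k * n + i ∧
        C k i = |(h (2 ^ k * n + i + 1) : ℝ)| / |(h (2 ^ k * n + i) : ℝ)|) ∧
      ∀ n : ℕ, 4 ≤ 2 ^ k * n + i →
        C k i * |(h (2 ^ k * n + i) : ℝ)| ≤ |(h (2 ^ k * n + i + 1) : ℝ)|) ∧
    (∀ k : ℕ, 1 ≤ k → C (2 * k) 0 = C (2 * k + 1) 0) ∧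
    C 1 0 = 2 / 7 ∧ C 2 0 = 2 / 3 ∧ C 4 0 = 64 / 83 ∧ C 6 0 = 52071130 / 67519091 := by
  refine ⟨fun k i hk hi => ?_, fun k hk => ?_, ?_, ?_, ?_, ?_⟩
  · obtain ⟨n, hn, hmin⟩ := Pool.Agent.V7H10.E68.attained k i hk hi
    have he := Pool.Agent.V7H10.E68.infRatio_eq k i n hn hmin
    refine ⟨⟨n, hn, by rw [C_eq, he]; rfl⟩, fun n' hn' => ?_⟩
    have h1 := hmin n' hn'
    have h2 := (Pool.Agent.V7H10.E68.h_bounds _ hn').1
    have h2' : (0 : ℝ) < |(h (2 ^ k * n' + i) : ℝ)| := by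
      have : (1 : ℝ) ≤ |(h (2 ^ k * n' + i) : ℝ)| := by exact_mod_cast h2
      linarith
    rw [C_eq, he]
    unfold Pool.Agent.V7H10.E68.ratio at h1 ⊢
    rwa [← le_div_iff₀ h2']
  · obtain ⟨m, rfl⟩ : ∃ m, k = m + 1 := ⟨k - 1, by omega⟩
    rw [C_eq, C_eq, show 2 * (m + 1) = 2 * m + 2 by ring, show 2 * m + 2 + 1 = 2 * m + 3 by ring,
      Pool.Agent.V7H10.E68.infRatio_even, Pool.Agent.V7H10.E68.infRatio_odd]
  · rw [C_eq]
    have hz3 := Pool.Agent.V7H10.E68.z_three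
    have e : Pool.Agent.V7H10.E68.ratio (2 ^ 1 * 7 + 0) = 2 / 7 := by
      rw [show 2 ^ 1 * 7 + 0 = 4 * 3 + 2 by norm_num, Pool.Agent.V7H10.E68.ratio2, hz3]; norm_num
    rw [Pool.Agent.V7H10.E68.infRatio_eq 1 0 7 (by norm_num) ?_, e]
    intro n' hn'
    rw [e]
    rw [pow_one, Nat.add_zero] at hn' ⊢
    rcases Nat.even_or_odd' n' with ⟨m, rfl | rfl⟩
    · have hm : 1 ≤ m := by omega
      rw [show 2 * (2 * m) = 4 * m by ring, Pool.Agent.V7H10.E68.ratio0 _ hm]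
      have := one_div_le_one_div_of_le (Pool.Agent.V7H10.E68.z_pos hm) (Pool.Agent.V7H10.E68.z_le m)
      norm_num at this ⊢
      linarith
    · have hm : 1 ≤ m := by omega
      rw [show 2 * (2 * m + 1) = 4 * m + 2 by ring, Pool.Agent.V7H10.E68.ratio2]
      have h1 := Pool.Agent.V7H10.E68.z_ge m hm
      rw [div_le_div_iff₀ (by norm_num) (by linarith)]
      linarith
  · have e := Pool.Agent.V7H10.E68.infRatio_even 0
    rw [C_eq]
    refine e.trans ?_
    rw [show 2 ^ (2 * 0 + 1) = 2 by norm_num, Pool.Agent.V7H10.E68.z_two]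
    norm_num
  · have e := Pool.Agent.V7H10.E68.infRatio_even 1
    rw [C_eq]
    refine e.trans ?_
    rw [show 2 ^ (2 * 1 + 1) = 8 by norm_num]
    exact z8
  · have e := Pool.Agent.V7H10.E68.infRatio_even 2
    rw [C_eq]
    refine e.trans ?_
    rw [show 2 ^ (2 * 2 + 1) = 32 by norm_num]
    exact z32

end Pool.Agent.Results.MP_e68cb8_nt.MinimaAttainedH10
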